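import Pool.Agent.MWV.Stmts

/-!
# Row FCA of squad MWV (MP_23468a_al): no spread over the end lights
-/

namespace Pool.Agent.MWV.H15

open Pool.Agent.Helper14_MV Pool.Agent.Helper2_MV

theorem cr_head (g : ℕ → Bool) : ∀ k, ∃ r, cr g [] 0 k = 1 :: r
  | 0 => ⟨[], rfl⟩
  | k + 1 => by
    obtain ⟨r, hr⟩ := cr_head g k
    exact ⟨r ++ (mk g (k + 1) ++ ([] ++ [3 * (0 + (k + 1)) + 1])), by
      show cr g [] 0 k ++ _ = _
      rw [hr]
      rfl⟩

theorem cr_last (g : ℕ → Bool) (k : ℕ) : ∃ r, cr g [] 0 k = r ++ [3 * k + 1] := by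
  rcases k with _ | k
  · exact ⟨[], rfl⟩
  · refine ⟨cr g [] 0 k ++ mk g (k + 1), ?_⟩
    show cr g [] 0 k ++ (mk g (k + 1) ++ ([] ++ [3 * (0 + (k + 1)) + 1])) = _
    rw [Nat.zero_add]
    simp

theorem cr_mem (g : ℕ → Bool) : ∀ k, ∀ a ∈ cr g [] 0 k, a % 3 = 0 ∨ ∃ e ≤ k, a = 3 * e + 1
  | 0 => by
    intro a ha
    have : a = 1 := by simpa [cr] using ha
    exact Or.inr ⟨0, le_refl _, by omega⟩
  | k + 1 => by
    intro a ha
    have ha' : a ∈ cr g [] 0 k ++ (mk g (k + 1) ++ ([] ++ [3 * (0 + (k + 1)) + 1])) := ha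
    rw [List.mem_append, List.mem_append, List.nil_append, List.mem_singleton] at ha'
    rcases ha' with h | h | h
    · rcases cr_mem g k a h with h | ⟨e, he, h⟩
      · exact Or.inl h
      · exact Or.inr ⟨e, by omega, h⟩
    · unfold mk at h
      split at h
      · rw [List.mem_singleton] at h
        exact Or.inl (by omega)
      · simp at h
    · exact Or.inr ⟨k + 1, le_refl _, by omega⟩

theorem mk_count (g : ℕ → Bool) (j e : ℕ) : (mk g j).count (3 * e + 1) = 0 := by
  rw [List.count_eq_zero]
  unfold mk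
  split
  · rw [List.mem_singleton]
    omega
  · simp

theorem cr_count_gt (g : ℕ → Bool) (k : ℕ) (e : ℕ) (h : k < e) :
    (cr g [] 0 k).count (3 * e + 1) = 0 := by
  rw [List.count_eq_zero]
  intro hm
  rcases cr_mem g k _ hm with h1 | ⟨e', he, h1⟩ <;> omega

theorem cr_count (g : ℕ → Bool) : ∀ k e, e ≤ k → (cr g [] 0 k).count (3 * e + 1) = 1
  | 0 => by
    intro e he
    have : e = 0 := by omega
    subst this
    rfl
  | k + 1 => by
    intro e he
    show (cr g [] 0 k ++ (mk g (k + 1) ++ ([] ++ [3 * (0 + (k + 1)) + 1]))).count (3 * e + 1) = 1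
    rw [List.count_append, List.count_append, mk_count, List.nil_append, Nat.zero_add (k + 1)]
    rcases Nat.lt_or_ge k e with h | h
    · have : e = k + 1 := by omega
      subst this
      rw [cr_count_gt g k (k + 1) (by omega), List.count_singleton_self]
    · rw [cr_count g k e h, List.count_singleton]
      have : ¬ ((3 * (k + 1) + 1 == 3 * e + 1) = true) := by
        simp only [beq_iff_eq]
        omega
      simp only [this, if_false]
      simp

theorem flatMap_X {f : ℕ → List ℕ} (N h : ℕ) (hf : f h = [h]) : (X N h).flatMap f = X N h := by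
  unfold X
  induction N with
  | zero => rfl
  | succ N ih => rw [List.replicate_succ, List.flatMap_cons, ih, hf]; rfl

theorem X_split {N : ℕ} (hN : 1 ≤ N) (L : List ℕ) : X (N - 1) 0 ++ 0 :: L = X N 0 ++ L := by
  have h : X N 0 = X (N - 1) 0 ++ [0] := by
    show List.replicate N 0 = List.replicate (N - 1) 0 ++ [0]
    rw [← List.replicate_succ' (n := N - 1)]
    congr 1
    omega
  rw [h, List.append_assoc]
  rfl

theorem X_count (N e : ℕ) : (X N 0).count (3 * e + 1) = 0 := by
  rw [List.count_eq_zero]
  intro h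
  have := List.eq_of_mem_replicate h
  omega

theorem zero_mem_X {N : ℕ} (hN : 1 ≤ N) : (0 : ℕ) ∈ X N 0 :=
  List.mem_replicate.2 ⟨by omega, rfl⟩

theorem pl_append (A B : List ℕ) : pl (A ++ B) = pl A ++ pl B := List.flatMap_append ..
theorem pr_append (A B : List ℕ) : pr (A ++ B) = pr A ++ pr B := List.flatMap_append ..
theorem pl_cons (e : ℕ) (A : List ℕ) : pl (e :: A) = (3 * e + 8) :: (3 * e + 1) :: pl A := rfl
theorem pr_cons (e : ℕ) (A : List ℕ) : pr (e :: A) = (3 * e + 1) :: (3 * e + 8) :: pr A := rfl

/-- the substitution `1 ↦ z`, `2 ↦ t` -/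
def fs (z : ℕ) (t : List ℕ) (a : ℕ) : List ℕ := if a = 1 then [z] else if a = 2 then t else [a]

theorem fs_heavy (z : ℕ) (t : List ℕ) (h : ℕ) (hh : h % 3 = 0) : ∀ a ∈ fs z t h, a % 3 = 0 := by
  intro a ha
  unfold fs at ha
  rw [if_neg (by omega), if_neg (by omega), List.mem_singleton] at ha
  omega

theorem fs0 (z : ℕ) (t : List ℕ) : fs z t 0 = [0] := rfl
theorem fs1 (z : ℕ) (t : List ℕ) : fs z t 1 = [z] := rfl
theorem fs2 (z : ℕ) (t : List ℕ) : fs z t 2 = t := rfl

/-- application of an identity in a context -/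
theorem ctx {N : ℕ} {S : List ℕ → List ℕ → Prop} (hW : Wo N S) (z : ℕ) (t A B : List ℕ)
    {u v : List ℕ} (h : S u v) :
    S (A ++ (u.flatMap (fs z t) ++ B)) (A ++ (v.flatMap (fs z t) ++ B)) :=
  hW.app (hW.refl A) (hW.app (hW.sub (fs z t) (fs_heavy z t) h) (hW.refl B))

/-- the end of the proof: RIG for a word with additional `X` -/
theorem fin (hR : RigStmt) {N : ℕ} {S : List ℕ → List ℕ → Prop} {P Q : List ℕ} {g : ℕ → Bool}
    {k : ℕ} (hW : Wo N S) (hk : 1 ≤ k) (hF : Free N S k) (hp : (P ++ Q).Perm (List.range (k + 1)))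
    (hg : Gone g k) (c d : List ℕ) (hcd : cr g [] 0 k = c ++ d) (h1 : 1 ∈ c) (h2 : 3 * k + 1 ∈ d)
    (hS : S (W P Q (X N 0 ++ (cr g [] 0 k ++ X N 0))) (W P Q (X N 0 ++ (c ++ (X N 0 ++ (d ++ X N 0)))))) :
    Run N S P Q g k := by
  have e : X N 0 ++ (c ++ (X N 0 ++ (d ++ X N 0))) =
      (X N 0 ++ (c ++ X (N - 1) 0)) ++ 0 :: (d ++ X N 0) := by
    rw [← X_split hW.pos (d ++ X N 0)]
    simp only [List.append_assoc]
  have hme : ∀ e, e ∈ P ++ Q ↔ e ≤ k := by
    intro e
    rw [hp.mem_iff, List.mem_range]
    omega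
  have hX0 : ∀ m a, a ∈ X m 0 → a = 0 := fun m a h => List.eq_of_mem_replicate h
  refine hR N S P Q g k hW hk hF hp hg (X N 0 ++ (c ++ X (N - 1) 0)) (d ++ X N 0)
    (by rw [← e]; exact hS) ?_ ?_ ?_ ?_
  · rw [← e]
    constructor
    · intro a ha
      simp only [List.mem_append] at ha
      have h3 : a ∈ cr g [] 0 k ∨ a = 0 := by
        rw [hcd, List.mem_append]
        rcases ha with h | h | h | h | h
        · exact Or.inr (hX0 _ _ h)
        · exact Or.inl (Or.inl h)
        · exact Or.inr (hX0 _ _ h)
        · exact Or.inl (Or.inr h)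
        · exact Or.inr (hX0 _ _ h)
      rcases h3 with h3 | h3
      · rcases cr_mem g k a h3 with h4 | ⟨e, he, h4⟩
        · exact Or.inl h4
        · exact Or.inr ⟨e, (hme e).2 he, h4⟩
      · exact Or.inl (by omega)
    · intro e he
      rw [hme] at he
      have h3 := cr_count g k e he
      rw [hcd, List.count_append] at h3
      rw [List.count_append, List.count_append, List.count_append, List.count_append, X_count]
      omega
  · intro a ha
    rw [hcd]
    simp only [List.mem_append] at ha ⊢
    have hz : ∀ m, a ∈ X m 0 → a ∈ X N 0 := by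
      intro m h
      rw [hX0 _ _ h]
      exact zero_mem_X hW.pos
    rcases ha with (h | h | h) | h | h
    · exact Or.inl h
    · exact Or.inr (Or.inl h)
    · exact Or.inl (hz _ h)
    · exact Or.inr (Or.inr h)
    · exact Or.inl h
  · exact List.mem_append_right _ (List.mem_append_left _ h1)
  · exact List.mem_append_left _ h2

/-- row FCA -/
theorem fca (_h1 : HvyStmt) (h2 : RigStmt) : FcaStmt := by
  intro N S P Q g k hW hk hF hp hg hnr
  have hme : ∀ e, e ∈ P ++ Q ↔ e ≤ k := by
    intro e
    rw [hp.mem_iff, List.mem_range]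
    omega
  obtain ⟨r, hr⟩ := cr_head g k
  obtain ⟨r', hr'⟩ := cr_last g k
  have hkr : 3 * k + 1 ∈ r := by
    have h : 3 * k + 1 ∈ (1 :: r) := by
      rw [← hr, hr']
      simp
    rw [List.mem_cons] at h
    rcases h with h | h
    · omega
    · exact h
  have hr1 : 1 ∈ r' := by
    have h : 1 ∈ r' ++ [3 * k + 1] := by
      rw [← hr', hr]
      simp
    rw [List.mem_append, List.mem_singleton] at h
    rcases h with h | h
    · exact h
    · omega
  have A : ¬ rr N S Q 0 := by
    intro hrr
    apply hnr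
    refine fin h2 hW hk hF hp hg [1] r (by rw [hr]; rfl) (by simp) hkr ?_
    by_cases h0 : 0 ∈ Q
    · have hra := hrr.1 h0
      obtain ⟨Q1, Q2, hQ⟩ := List.append_of_mem h0
      have h3 := ctx hW 1 (r ++ (X N 0 ++ 5 :: pr Q1)) (pl P ++ [2]) (8 :: pr Q2) hra
      simp only [List.flatMap_append, List.flatMap_cons, List.flatMap_nil, flatMap_X N 0 (fs0 _ _),
        fs1, fs2, List.append_assoc, List.cons_append, List.nil_append] at h3
      unfold W
      rw [hr, hQ, pr_append, pr_cons]
      simp only [List.append_assoc, List.cons_append, List.nil_append]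
      exact h3
    · have h0P : 0 ∈ P := by
        rcases List.mem_append.1 ((hme 0).2 (by omega)) with h | h
        · exact h
        · exact absurd h h0
      have hrb := hrr.2 h0
      obtain ⟨P1, P2, hP⟩ := List.append_of_mem h0P
      have h3 := ctx hW 1 (pl P2 ++ [2]) (pl P1 ++ [8]) (r ++ (X N 0 ++ 5 :: pr Q)) hrb
      simp only [List.flatMap_append, List.flatMap_cons, List.flatMap_nil, flatMap_X N 0 (fs0 _ _),
        fs1, fs2, List.append_assoc, List.cons_append, List.nil_append] at h3
      unfold W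
      rw [hr, hP, pl_append, pl_cons]
      simp only [List.append_assoc, List.cons_append, List.nil_append]
      exact h3
  have B : ¬ ll N S Q k := by
    intro hll
    apply hnr
    refine fin h2 hW hk hF hp hg r' [3 * k + 1] hr' hr1 (by simp) ?_
    by_cases h0 : k ∈ Q
    · have hla := hll.1 h0
      obtain ⟨Q1, Q2, hQ⟩ := List.append_of_mem h0
      have h3 := ctx hW (3 * k + 1) (5 :: pr Q1) (pl P ++ 2 :: (X N 0 ++ r')) ((3 * k + 8) :: pr Q2)
        hla
      simp only [List.flatMap_append, List.flatMap_cons, List.flatMap_nil, flatMap_X N 0 (fs0 _ _),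
        fs1, fs2, List.append_assoc, List.cons_append, List.nil_append] at h3
      unfold W
      rw [hr', hQ, pr_append, pr_cons]
      simp only [List.append_assoc, List.cons_append, List.nil_append]
      exact h3
    · have h0P : k ∈ P := by
        rcases List.mem_append.1 ((hme k).2 (le_refl k)) with h | h
        · exact h
        · exact absurd h h0
      have hlb := hll.2 h0
      obtain ⟨P1, P2, hP⟩ := List.append_of_mem h0P
      have h3 := ctx hW (3 * k + 1) (pl P2 ++ 2 :: (X N 0 ++ r')) (pl P1 ++ [3 * k + 8])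
        (5 :: pr Q) hlb
      simp only [List.flatMap_append, List.flatMap_cons, List.flatMap_nil, flatMap_X N 0 (fs0 _ _),
        fs1, fs2, List.append_assoc, List.cons_append, List.nil_append] at h3
      unfold W
      rw [hr', hP, pl_append, pl_cons]
      simp only [List.append_assoc, List.cons_append, List.nil_append]
      exact h3
  refine ⟨A, B, ?_, ?_⟩
  · intro h
    apply A
    constructor
    · intro _
      have h3 := ctx hW 1 [1] [] [2, 1] h
      simp only [List.flatMap_append, List.flatMap_cons, List.flatMap_nil, flatMap_X N 0 (fs0 _ _),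
        fs2, List.append_assoc, List.cons_append, List.nil_append] at h3
      exact h3
    · intro _
      have h3 := ctx hW 1 [1] [1, 2] [] h
      simp only [List.flatMap_append, List.flatMap_cons, List.flatMap_nil, flatMap_X N 0 (fs0 _ _),
        fs2, List.append_assoc, List.cons_append, List.nil_append, List.append_nil] at h3
      exact h3
  · intro h
    apply B
    constructor
    · intro _
      have h3 := ctx hW 1 [1] [] [2, 1] h
      simp only [List.flatMap_append, List.flatMap_cons, List.flatMap_nil, flatMap_X N 0 (fs0 _ _),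
        fs2, List.append_assoc, List.cons_append, List.nil_append] at h3
      exact h3
    · intro _
      have h3 := ctx hW 1 [1] [1, 2] [] h
      simp only [List.flatMap_append, List.flatMap_cons, List.flatMap_nil, flatMap_X N 0 (fs0 _ _),
        fs2, List.append_assoc, List.cons_append, List.nil_append, List.append_nil] at h3
      exact h3

end Pool.Agent.MWV.H15
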